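import Mathlib
import Pool.Agent.H337R3.Sid2

set_option autoImplicit false
set_option linter.unusedSectionVars false

/-!
# Subgaussian sets of characters of `(ℤ/N)^ℕ`

For every `N ≥ 1`, and `G = (ℤ/N)^ℕ`, a set of nonzero characters of `G` is subgaussian if and only
if it is a finite union of quasi-independent sets. The problem is the case `N = 4`.
-/

namespace Pool.Agent.Results.MP_080bf7_an.SubgaussianIffQuasiIndependent

open MeasureTheory TopologicalSpace

variable {N : ℕ} [NeZero N]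

/-- The normalised Haar measure of the compact group `G = (ℤ/N)^ℕ` (product topology). -/
noncomputable def haar (N : ℕ) [NeZero N] : Measure (ℕ → ZMod N) :=
  Measure.addHaarMeasure (⊤ : PositiveCompacts (ℕ → ZMod N))

/-- The character `γ_n(t) = exp(2πi (∑_k t_k n_k) / N)` of `G = (ℤ/N)^ℕ` attached to the finitely
supported sequence `n`. -/
noncomputable def chr (n : ℕ →₀ ZMod N) (t : ℕ → ZMod N) : ℂ :=
  Complex.exp (2 * Real.pi * Complex.I * ((∑ k ∈ n.support, t k * n k : ZMod N).val : ℂ) / N)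

/-- The `ψ₂` norm `inf {c > 0 : ∫ exp(|f|² / c²) ≤ e}` with respect to normalised Haar measure. -/
noncomputable def psi2Norm (f : (ℕ → ZMod N) → ℂ) : ℝ :=
  sInf {c : ℝ | 0 < c ∧
    ∫⁻ t, ENNReal.ofReal (Real.exp (‖f t‖ ^ 2 / c ^ 2)) ∂(haar N) ≤ ENNReal.ofReal (Real.exp 1)}

/-- `Λ` is subgaussian: `‖∑ a_n γ_n‖_{ψ₂} ≤ C (∑ |a_n|²)^{1/2}` for all finitely supported families
of complex coefficients on `Λ`. -/
def Subgaussian (Λ : Set (ℕ →₀ ZMod N)) : Prop :=
  ∃ C : ℝ, ∀ (A : Finset (ℕ →₀ ZMod N)) (a : (ℕ →₀ ZMod N) → ℂ),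
    (A : Set (ℕ →₀ ZMod N)) ⊆ Λ →
      psi2Norm (fun t => ∑ n ∈ A, a n * chr n t) ≤ C * Real.sqrt (∑ n ∈ A, ‖a n‖ ^ 2)

/-- `Λ` is quasi-independent: a relation `∑_{x ∈ A} ξ_x x = 0` over a finite `A ⊆ Λ` with all
`ξ_x ∈ {-1, 0, 1}` is trivial. -/
def QuasiIndependent (Λ : Set (ℕ →₀ ZMod N)) : Prop :=
  ∀ A : Finset (ℕ →₀ ZMod N), (A : Set (ℕ →₀ ZMod N)) ⊆ Λ → ∀ ξ : (ℕ →₀ ZMod N) → ℤ,
    (∀ x ∈ A, ξ x = -1 ∨ ξ x = 0 ∨ ξ x = 1) → ∑ x ∈ A, ξ x • x = 0 → ∀ x ∈ A, ξ x = 0

/-! ### the Haar measure and the characters -/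

instance : IsProbabilityMeasure (haar N) := ⟨by
  have h := Measure.addHaarMeasure_self (K₀ := (⊤ : PositiveCompacts (ℕ → ZMod N)))
  simpa [haar] using h⟩

instance : (haar N).IsAddLeftInvariant := by unfold haar; infer_instance

theorem chr_eq (n : ℕ →₀ ZMod N) (t : ℕ → ZMod N) :
    chr n t = ZMod.stdAddChar (n.sum fun k a => t k * a) := by
  rw [ZMod.stdAddChar_apply, ZMod.toCircle_apply, chr]
  rfl

theorem pair_add_left (m n : ℕ →₀ ZMod N) (t : ℕ → ZMod N) :
    ((m + n).sum fun k a => t k * a) = (m.sum fun k a => t k * a) + n.sum fun k a => t k * a :=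
  Finsupp.sum_add_index' (fun _ => by simp) (fun _ _ _ => by ring)

theorem pair_add_right (n : ℕ →₀ ZMod N) (s t : ℕ → ZMod N) :
    (n.sum fun k a => (s + t) k * a) = (n.sum fun k a => s k * a) + n.sum fun k a => t k * a := by
  rw [← Finsupp.sum_add]
  refine Finsupp.sum_congr fun k _ => ?_
  rw [Pi.add_apply, add_mul]

theorem chr_zero (t : ℕ → ZMod N) : chr 0 t = 1 := by
  rw [chr_eq]; simp

theorem chr_add (m n : ℕ →₀ ZMod N) (t : ℕ → ZMod N) : chr (m + n) t = chr m t * chr n t := by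
  rw [chr_eq, chr_eq, chr_eq, pair_add_left, AddChar.map_add_eq_mul]

theorem chr_add' (n : ℕ →₀ ZMod N) (s t : ℕ → ZMod N) : chr n (s + t) = chr n s * chr n t := by
  rw [chr_eq, chr_eq, chr_eq, pair_add_right, AddChar.map_add_eq_mul]

theorem norm_chr (n : ℕ →₀ ZMod N) (t : ℕ → ZMod N) : ‖chr n t‖ = 1 := by
  rw [chr_eq, ZMod.stdAddChar_apply]
  exact Circle.norm_coe _

theorem chr_neg (n : ℕ →₀ ZMod N) (t : ℕ → ZMod N) :
    chr (-n) t = starRingEnd ℂ (chr n t) := by
  have h := chr_add (-n) n t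
  rw [neg_add_cancel, chr_zero] at h
  have h2 : starRingEnd ℂ (chr n t) * chr n t = 1 := by
    rw [mul_comm, Complex.mul_conj, Complex.normSq_eq_norm_sq, norm_chr]
    norm_num
  have h3 : chr n t ≠ 0 := by
    intro h0
    have := norm_chr n t
    rw [h0, norm_zero] at this
    norm_num at this
  exact mul_right_cancel₀ h3 (h.symm.trans h2.symm)

theorem chr_continuous (n : ℕ →₀ ZMod N) : Continuous (chr n) := by
  have h : chr n = fun t => (ZMod.stdAddChar (n.sum fun k a => t k * a) : ℂ) := by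
    funext t; exact chr_eq n t
  rw [h]
  have h2 : Continuous fun t : ℕ → ZMod N => (n.sum fun k a => t k * a) := by
    unfold Finsupp.sum
    exact continuous_finsetSum _ fun k _ => (continuous_apply k).mul continuous_const
  exact (continuous_of_discreteTopology (f := fun z : ZMod N => (ZMod.stdAddChar z : ℂ))).comp h2

@[fun_prop]
theorem chr_measurable (n : ℕ →₀ ZMod N) : Measurable (chr n) := (chr_continuous n).measurable

theorem exists_chr_ne_one (n : ℕ →₀ ZMod N) (hn : n ≠ 0) : ∃ t, chr n t ≠ 1 := by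
  obtain ⟨k, hk⟩ := Finsupp.ne_iff.1 hn
  rw [Finsupp.zero_apply] at hk
  refine ⟨Pi.single k 1, ?_⟩
  rw [chr_eq]
  have h : (n.sum fun j a => (Pi.single k (1 : ZMod N) : ℕ → ZMod N) j * a) = n k := by
    unfold Finsupp.sum
    rw [Finset.sum_eq_single k]
    · simp
    · intro j _ hj
      simp [hj]
    · intro h0
      simp [Finsupp.notMem_support_iff.1 h0]
  rw [h]
  intro h1
  apply hk
  have h2 : (ZMod.stdAddChar (n k) : ℂ) = ZMod.stdAddChar (0 : ZMod N) := by
    rw [h1, AddChar.map_zero_eq_one]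
  exact ZMod.injective_stdAddChar h2

theorem integral_chr (n : ℕ →₀ ZMod N) (hn : n ≠ 0) : ∫ t, chr n t ∂(haar N) = 0 := by
  obtain ⟨s, hs⟩ := exists_chr_ne_one n hn
  have h1 : ∫ t, chr n (s + t) ∂(haar N) = ∫ t, chr n t ∂(haar N) :=
    integral_add_left_eq_self _ s
  simp_rw [chr_add'] at h1
  rw [integral_const_mul] at h1
  have h2 : (chr n s - 1) * ∫ t, chr n t ∂(haar N) = 0 := by
    rw [sub_mul, one_mul, h1, sub_self]
  rcases mul_eq_zero.1 h2 with h | h
  · exact absurd (sub_eq_zero.1 h) hs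
  · exact h

/-! ### subgaussian sets are small -/

/-- The integrand of the `ψ₂` norm. -/
noncomputable def gauss (f : (ℕ → ZMod N) → ℂ) (c : ℝ) : ENNReal :=
  ∫⁻ t, ENNReal.ofReal (Real.exp (‖f t‖ ^ 2 / c ^ 2)) ∂(haar N)

theorem poly_continuous (A : Finset (ℕ →₀ ZMod N)) (a : (ℕ →₀ ZMod N) → ℂ) :
    Continuous fun t => ∑ n ∈ A, a n * chr n t :=
  continuous_finsetSum _ fun n _ => continuous_const.mul (chr_continuous n)

theorem annihilator_measure (A : Finset (ℕ →₀ ZMod N))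
    [Finite (AddSubgroup.closure (A : Set (ℕ →₀ ZMod N)))] :
    1 ≤ (Nat.card (AddSubgroup.closure (A : Set (ℕ →₀ ZMod N))) : ENNReal) *
      haar N {t | ∀ n ∈ A, chr n t = 1} := by
  classical
  set M := AddSubgroup.closure (A : Set (ℕ →₀ ZMod N)) with hM
  let _ := Fintype.ofFinite M
  let r : (ℕ → ZMod N) → AddChar M ℂ := fun t =>
    { toFun := fun m => chr (m : ℕ →₀ ZMod N) t
      map_zero_eq_one' := by simpa using chr_zero t
      map_add_eq_mul' := fun a b => by
        simp only [AddSubgroup.coe_add]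
        exact chr_add _ _ _ }
  have hr : ∀ t m, r t m = chr (m : ℕ →₀ ZMod N) t := fun _ _ => rfl
  have hfib : ∀ ψ : AddChar M ℂ, haar N {t | r t = ψ} ≤ haar N {t | ∀ n ∈ A, chr n t = 1} := by
    intro ψ
    by_cases h : ∃ s, r s = ψ
    · obtain ⟨s, hs⟩ := h
      rw [← measure_preimage_add (haar N) s {t | r t = ψ}]
      refine measure_mono ?_
      intro t ht n hn
      have h1 : r (s + t) = ψ := ht
      have h2 : r (s + t) ⟨n, AddSubgroup.subset_closure hn⟩ = r s ⟨n, AddSubgroup.subset_closure hn⟩ := by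
        rw [h1, hs]
      rw [hr, hr, chr_add'] at h2
      have h3 : chr n s ≠ 0 := by
        intro h0
        have := norm_chr n s
        rw [h0, norm_zero] at this
        norm_num at this
      exact mul_left_cancel₀ h3 (by rw [mul_one]; exact h2)
    · have : {t | r t = ψ} = ∅ := by
        ext t
        simp only [Set.mem_ofPred_eq, Set.mem_empty_iff_false, iff_false]
        exact fun h' => h ⟨t, h'⟩
      rw [this, measure_empty]
      exact bot_le
  have hcov : (⋃ ψ : AddChar M ℂ, {t | r t = ψ}) = Set.univ := by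
    ext t
    simp
  calc (1 : ENNReal) = haar N (⋃ ψ : AddChar M ℂ, {t | r t = ψ}) := by
        rw [hcov, measure_univ]
    _ ≤ ∑ ψ : AddChar M ℂ, haar N {t | r t = ψ} := measure_iUnion_fintype_le _ _
    _ ≤ ∑ _ψ : AddChar M ℂ, haar N {t | ∀ n ∈ A, chr n t = 1} := Finset.sum_le_sum fun ψ _ => hfib ψ
    _ = _ := by
        rw [Finset.sum_const, Finset.card_univ, AddChar.card_eq, nsmul_eq_mul,
          Nat.card_eq_fintype_card]

theorem card_le_of_gauss (A : Finset (ℕ →₀ ZMod N))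
    [Finite (AddSubgroup.closure (A : Set (ℕ →₀ ZMod N)))] (c : ℝ)
    (h : gauss (fun t => ∑ n ∈ A, (1 : ℂ) * chr n t) c ≤ ENNReal.ofReal (Real.exp 1)) :
    (A.card : ℝ) ^ 2 / c ^ 2 ≤
      1 + Real.log (Nat.card (AddSubgroup.closure (A : Set (ℕ →₀ ZMod N)))) := by
  set M := AddSubgroup.closure (A : Set (ℕ →₀ ZMod N)) with hM
  have hcont : Continuous fun t => Real.exp (‖∑ n ∈ A, (1 : ℂ) * chr n t‖ ^ 2 / c ^ 2) := by
    have := (poly_continuous A (fun _ => (1 : ℂ))).norm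
    fun_prop
  set ε : ENNReal := ENNReal.ofReal (Real.exp ((A.card : ℝ) ^ 2 / c ^ 2)) with hε
  have h1 : ε * haar N {t | ∀ n ∈ A, chr n t = 1} ≤ ENNReal.ofReal (Real.exp 1) := by
    have h2 := mul_meas_ge_le_lintegral (μ := haar N) (ENNReal.measurable_ofReal.comp hcont.measurable) ε
    refine le_trans ?_ (h2.trans h)
    refine mul_le_mul_right (measure_mono ?_) ε
    intro t ht
    have h3 : ∑ n ∈ A, (1 : ℂ) * chr n t = A.card := by
      rw [Finset.sum_congr rfl (fun n hn => by rw [ht n hn, mul_one])]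
      simp
    simp only [Set.mem_ofPred_eq, Function.comp]
    rw [h3, hε]
    simp
  have h2 : ε ≤ (Nat.card M : ENNReal) * ENNReal.ofReal (Real.exp 1) := by
    calc ε = ε * 1 := (mul_one _).symm
      _ ≤ ε * ((Nat.card M : ENNReal) * haar N {t | ∀ n ∈ A, chr n t = 1}) :=
          mul_le_mul_right (annihilator_measure A) ε
      _ = (Nat.card M : ENNReal) * (ε * haar N {t | ∀ n ∈ A, chr n t = 1}) := by ring
      _ ≤ _ := mul_le_mul_right h1 _
  have hMpos : (0 : ℝ) < Nat.card M := by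
    exact_mod_cast Nat.card_pos
  have h3 : Real.exp ((A.card : ℝ) ^ 2 / c ^ 2) ≤ Nat.card M * Real.exp 1 := by
    have h4 : (Nat.card M : ENNReal) * ENNReal.ofReal (Real.exp 1) =
        ENNReal.ofReal (Nat.card M * Real.exp 1) := by
      rw [ENNReal.ofReal_mul (by positivity), ENNReal.ofReal_natCast]
    rw [h4, hε] at h2
    exact (ENNReal.ofReal_le_ofReal_iff (by positivity)).1 h2
  have h4 := Real.log_le_log (Real.exp_pos _) h3
  rw [Real.log_exp, Real.log_mul hMpos.ne' (Real.exp_pos _).ne', Real.log_exp] at h4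
  linarith

theorem small_of_subgaussian (Λ : Set (ℕ →₀ ZMod N)) (h0 : (0 : ℕ →₀ ZMod N) ∉ Λ)
    (h : Subgaussian Λ) : ∃ K : ℕ, H337R3.Sid.Small K Λ := by
  classical
  obtain ⟨C, hC⟩ := h
  set C1 : ℝ := max C 0 + 1 with hC1
  have hC1pos : 0 < C1 := by have := le_max_right C 0; linarith
  refine ⟨⌈3 * C1 ^ 2⌉₊, ?_⟩
  intro A hA
  have hfin : Finite (AddSubgroup.closure (A : Set (ℕ →₀ ZMod N))) := by
    refine H337R3.Sid.closure_finite N (Nat.pos_of_ne_zero (NeZero.ne N)) A ?_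
    intro x _
    ext k
    simp
  by_cases hAe : A.Nonempty
  swap
  · rw [Finset.not_nonempty_iff_eq_empty] at hAe
    subst hAe
    simp only [Finset.card_empty, pow_zero]
    apply Nat.one_le_pow
    exact Nat.card_pos
  have hAcard : 0 < A.card := Finset.card_pos.mpr hAe
  set M := AddSubgroup.closure (A : Set (ℕ →₀ ZMod N)) with hM
  set n := Nat.card M with hn
  have hN2 : 2 ≤ n := by
    obtain ⟨x, hx⟩ := hAe
    have hx0 : x ≠ 0 := by
      rintro rfl
      exact h0 (hA hx)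
    have : Nontrivial M := ⟨⟨⟨x, AddSubgroup.subset_closure hx⟩, 0, fun h => hx0 (by
      have := congrArg Subtype.val h
      simpa using this)⟩⟩
    exact Finite.one_lt_card
  have hAR : (0 : ℝ) < A.card := by exact_mod_cast hAcard
  have hsub := hC A (fun _ => 1) hA
  have hsum : ∑ n ∈ A, ‖(1 : ℂ)‖ ^ 2 = (A.card : ℝ) := by simp
  rw [hsum] at hsub
  set S := {c : ℝ | 0 < c ∧ ∫⁻ t, ENNReal.ofReal
    (Real.exp (‖∑ n ∈ A, (1 : ℂ) * chr n t‖ ^ 2 / c ^ 2)) ∂(haar N) ≤ ENNReal.ofReal (Real.exp 1)}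
    with hS
  have hSne : S.Nonempty := by
    refine ⟨A.card, hAR, ?_⟩
    calc gauss (fun t => ∑ n ∈ A, (1 : ℂ) * chr n t) A.card
        ≤ ∫⁻ _t, ENNReal.ofReal (Real.exp 1) ∂(haar N) := by
          refine lintegral_mono fun t => ENNReal.ofReal_le_ofReal (Real.exp_le_exp.2 ?_)
          rw [div_le_one (by positivity)]
          refine pow_le_pow_left₀ (norm_nonneg _) ?_ 2
          refine (norm_sum_le _ _).trans (le_of_eq ?_)
          rw [Finset.sum_congr rfl (fun n _ => by rw [norm_mul, norm_one, norm_chr, one_mul])]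
          simp
      _ = _ := by simp
  have hlt : sInf S < C1 * Real.sqrt A.card := by
    have h1 : sInf S ≤ C * Real.sqrt A.card := hsub
    have h2 : 0 < Real.sqrt A.card := Real.sqrt_pos.2 hAR
    have h3 : C < C1 := by have := le_max_left C 0; linarith
    nlinarith
  obtain ⟨c, hcS, hc⟩ := exists_lt_of_csInf_lt hSne hlt
  have h1 := card_le_of_gauss A c hcS.2
  have hc0 : 0 < c := hcS.1
  have hc2 : c ^ 2 ≤ C1 ^ 2 * A.card := by
    have h2 : c ^ 2 ≤ (C1 * Real.sqrt A.card) ^ 2 := pow_le_pow_left₀ hc0.le hc.le 2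
    rwa [mul_pow, Real.sq_sqrt hAR.le] at h2
  rw [div_le_iff₀ (by positivity)] at h1
  change (A.card : ℝ) ^ 2 ≤ (1 + Real.log n) * c ^ 2 at h1
  have hn1 : (1 : ℝ) ≤ n := by exact_mod_cast (by omega : 1 ≤ n)
  have hlogN : 0 ≤ Real.log n := Real.log_nonneg hn1
  have h2 : (A.card : ℝ) ≤ (1 + Real.log n) * C1 ^ 2 := by
    have h3 : (A.card : ℝ) ^ 2 ≤ (1 + Real.log n) * (C1 ^ 2 * A.card) :=
      h1.trans (mul_le_mul_of_nonneg_left hc2 (by linarith))
    by_contra hcon
    rw [not_le] at hcon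
    nlinarith
  have hlog2 : Real.log 2 ≤ Real.log n := Real.log_le_log (by norm_num) (by exact_mod_cast hN2)
  have hlog2' : 1 / 2 < Real.log 2 := by
    have := Real.log_two_gt_d9
    linarith
  have hlog2'' : Real.log 2 < 1 := by
    have := Real.log_two_lt_d9
    linarith
  have h5 : (A.card : ℝ) * Real.log 2 ≤ (⌈3 * C1 ^ 2⌉₊ : ℝ) * Real.log n := by
    calc (A.card : ℝ) * Real.log 2 ≤ A.card * 1 := mul_le_mul_of_nonneg_left hlog2''.le (by positivity)
      _ ≤ (1 + Real.log n) * C1 ^ 2 := by rw [mul_one]; exact h2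
      _ ≤ 3 * C1 ^ 2 * Real.log n := by nlinarith [sq_nonneg C1]
      _ ≤ _ := mul_le_mul_of_nonneg_right (Nat.le_ceil _) hlogN
  have hnpos : (0 : ℝ) < n := by linarith
  have h6 : Real.log ((2 : ℝ) ^ A.card) ≤ Real.log ((n : ℝ) ^ ⌈3 * C1 ^ 2⌉₊) := by
    rw [Real.log_pow, Real.log_pow]
    exact h5
  have h7 := (Real.log_le_log_iff (by positivity) (by positivity)).mp h6
  exact_mod_cast h7

/-! ### quasi-independent sets are subgaussian -/

theorem exp_le_lin (l r x : ℝ) (hr : 0 ≤ r) (hx : |x| ≤ r) :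
    Real.exp (l * x) ≤ Real.cosh (l * r) + Real.sinh (l * r) / r * x := by
  rcases hr.eq_or_lt with h | h
  · have hx0 : x = 0 := by
      rw [← h] at hx
      exact abs_nonpos_iff.1 hx
    rw [← h, hx0]
    simp
  · have h1 := abs_le.1 hx
    set s : ℝ := (1 + x / r) / 2 with hs
    have hxr : x / r ≤ 1 := by rw [div_le_one h]; exact h1.2
    have hxr' : -1 ≤ x / r := by rw [le_div_iff₀ h]; linarith [h1.1]
    have hs0 : 0 ≤ s := by rw [hs]; linarith
    have hs1 : s ≤ 1 := by rw [hs]; linarith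
    have h2 := convexOn_exp.2 (Set.mem_univ (l * r)) (Set.mem_univ (-(l * r))) hs0
      (by linarith : (0 : ℝ) ≤ 1 - s) (by ring)
    have h3 : s • (l * r) + (1 - s) • (-(l * r)) = l * x := by
      simp only [smul_eq_mul]
      rw [hs]
      field_simp
      ring
    rw [h3] at h2
    refine h2.trans (le_of_eq ?_)
    simp only [smul_eq_mul]
    rw [Real.cosh_eq, Real.sinh_eq, hs]
    field_simp
    ring

/-- Coefficients of `cosh + s Re(a γ)`. -/
noncomputable def kap (l : ℝ) (a : ℂ) (ξ : ℤ) : ℂ :=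
  if ξ = 0 then (Real.cosh (l * ‖a‖) : ℂ) else
    if ξ = 1 then ((Real.sinh (l * ‖a‖) / ‖a‖ : ℝ) : ℂ) * a / 2 else
      ((Real.sinh (l * ‖a‖) / ‖a‖ : ℝ) : ℂ) * (starRingEnd ℂ a) / 2

theorem kap_sum (l : ℝ) (a : ℂ) (n : ℕ →₀ ZMod N) (t : ℕ → ZMod N) :
    ∑ ξ ∈ ({-1, 0, 1} : Finset ℤ), kap l a ξ * chr (ξ • n) t =
      ((Real.cosh (l * ‖a‖) + Real.sinh (l * ‖a‖) / ‖a‖ * (a * chr n t).re : ℝ) : ℂ) := by
  rw [Finset.sum_insert (by decide), Finset.sum_insert (by decide), Finset.sum_singleton]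
  have h1 : chr ((-1 : ℤ) • n) t = starRingEnd ℂ (chr n t) := by
    rw [neg_one_zsmul, chr_neg]
  rw [h1, zero_smul, chr_zero, one_smul]
  have e1 : kap l a (-1) = ((Real.sinh (l * ‖a‖) / ‖a‖ : ℝ) : ℂ) * (starRingEnd ℂ a) / 2 := by
    simp [kap]
  have e2 : kap l a 0 = (Real.cosh (l * ‖a‖) : ℂ) := by simp [kap]
  have e3 : kap l a 1 = ((Real.sinh (l * ‖a‖) / ‖a‖ : ℝ) : ℂ) * a / 2 := by simp [kap]
  rw [e1, e2, e3]
  have h2 : ((a * chr n t).re : ℂ) = (a * chr n t + starRingEnd ℂ (a * chr n t)) / 2 :=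
    Complex.re_eq_add_conj _
  rw [Complex.ofReal_add, Complex.ofReal_mul, h2, map_mul]
  ring

theorem chr_sum {ι : Type*} (s : Finset ι) (f : ι → (ℕ →₀ ZMod N)) (t : ℕ → ZMod N) :
    chr (∑ i ∈ s, f i) t = ∏ i ∈ s, chr (f i) t := by
  classical
  induction s using Finset.induction_on with
  | empty => simp [chr_zero]
  | insert i s hi ih => rw [Finset.sum_insert hi, Finset.prod_insert hi, chr_add, ih]

theorem integrable_chr (n : ℕ →₀ ZMod N) : Integrable (chr n) (haar N) :=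
  (chr_continuous n).integrable_of_hasCompactSupport (HasCompactSupport.of_compactSpace _)

theorem integral_prod_kap (A : Finset (ℕ →₀ ZMod N)) (hA : QuasiIndependent (A : Set (ℕ →₀ ZMod N)))
    (l : ℝ) (a : (ℕ →₀ ZMod N) → ℂ) :
    ∫ t, ∏ n ∈ A, (Real.cosh (l * ‖a n‖) + Real.sinh (l * ‖a n‖) / ‖a n‖ * (a n * chr n t).re)
      ∂(haar N) = ∏ n ∈ A, Real.cosh (l * ‖a n‖) := by
  classical
  have key : ∀ t : ℕ → ZMod N, ((∏ n ∈ A, (Real.cosh (l * ‖a n‖) +
      Real.sinh (l * ‖a n‖) / ‖a n‖ * (a n * chr n t).re) : ℝ) : ℂ) =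
      ∑ x ∈ Fintype.piFinset (fun _ : A => ({-1, 0, 1} : Finset ℤ)),
        (∏ n : A, kap l (a n) (x n)) * chr (∑ n : A, x n • (n : ℕ →₀ ZMod N)) t := by
    intro t
    rw [Complex.ofReal_prod, ← Finset.prod_coe_sort A]
    simp_rw [← kap_sum]
    rw [Finset.prod_univ_sum]
    refine Finset.sum_congr rfl fun x _ => ?_
    rw [Finset.prod_mul_distrib, chr_sum]
  have h1 : ((∫ t, ∏ n ∈ A, (Real.cosh (l * ‖a n‖) +
      Real.sinh (l * ‖a n‖) / ‖a n‖ * (a n * chr n t).re) ∂(haar N) : ℝ) : ℂ) =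
      ((∏ n ∈ A, Real.cosh (l * ‖a n‖) : ℝ) : ℂ) := by
    rw [← integral_complex_ofReal]
    simp_rw [key]
    rw [integral_finsetSum _ (fun x _ => (integrable_chr _).const_mul _)]
    simp_rw [integral_const_mul]
    rw [Finset.sum_eq_single (fun _ => (0 : ℤ))]
    · have h2 : ∑ n : A, (0 : ℤ) • (n : ℕ →₀ ZMod N) = 0 := by simp
      rw [h2]
      have h3 : ∫ t, chr (0 : ℕ →₀ ZMod N) t ∂(haar N) = 1 := by
        simp_rw [chr_zero]
        simp
      rw [h3, mul_one, Complex.ofReal_prod, ← Finset.prod_coe_sort A]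
      refine Finset.prod_congr rfl fun n _ => ?_
      simp [kap]
    · intro x hx hx0
      rw [Fintype.mem_piFinset] at hx
      have h2 : ∑ n : A, x n • (n : ℕ →₀ ZMod N) ≠ 0 := by
        intro h3
        apply hx0
        funext n
        set ξ : (ℕ →₀ ZMod N) → ℤ := fun m => if h : m ∈ A then x ⟨m, h⟩ else 0 with hξ
        have h4 : ∀ m : A, ξ m = x m := fun m => by rw [hξ]; simp
        have h5 := hA A (le_refl _) ξ (fun m hm => by
          have := hx ⟨m, hm⟩
          rw [← h4 ⟨m, hm⟩] at this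
          simpa using this) (by
          rw [← Finset.sum_coe_sort A]
          simp_rw [h4]
          exact h3) n n.2
        rw [h4] at h5
        exact h5
      rw [integral_chr _ h2, mul_zero]
    · intro h
      exact absurd (by rw [Fintype.mem_piFinset]; intro _; simp) h
  exact_mod_cast h1

theorem mgf (A : Finset (ℕ →₀ ZMod N)) (hA : QuasiIndependent (A : Set (ℕ →₀ ZMod N)))
    (l : ℝ) (a : (ℕ →₀ ZMod N) → ℂ) :
    ∫⁻ t, ENNReal.ofReal (Real.exp (l * (∑ n ∈ A, a n * chr n t).re)) ∂(haar N) ≤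
      ENNReal.ofReal (Real.exp (l ^ 2 * (∑ n ∈ A, ‖a n‖ ^ 2) / 2)) := by
  have hle : ∀ t : ℕ → ZMod N, ∀ n ∈ A, Real.exp (l * (a n * chr n t).re) ≤
      Real.cosh (l * ‖a n‖) + Real.sinh (l * ‖a n‖) / ‖a n‖ * (a n * chr n t).re := by
    intro t n _
    refine exp_le_lin l _ _ (norm_nonneg _) ?_
    refine (Complex.abs_re_le_norm _).trans ?_
    rw [norm_mul, norm_chr, mul_one]
  have hcont : Continuous fun t => ∏ n ∈ A, (Real.cosh (l * ‖a n‖) +
      Real.sinh (l * ‖a n‖) / ‖a n‖ * (a n * chr n t).re) := by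
    refine continuous_finsetProd _ fun n _ => ?_
    have := chr_continuous n
    fun_prop
  calc ∫⁻ t, ENNReal.ofReal (Real.exp (l * (∑ n ∈ A, a n * chr n t).re)) ∂(haar N)
      ≤ ∫⁻ t, ENNReal.ofReal (∏ n ∈ A, (Real.cosh (l * ‖a n‖) +
          Real.sinh (l * ‖a n‖) / ‖a n‖ * (a n * chr n t).re)) ∂(haar N) := by
        refine lintegral_mono fun t => ENNReal.ofReal_le_ofReal ?_
        rw [Complex.re_sum, Finset.mul_sum, Real.exp_sum]
        exact Finset.prod_le_prod (fun _ _ => (Real.exp_pos _).le) (hle t)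
    _ = ENNReal.ofReal (∫ t, ∏ n ∈ A, (Real.cosh (l * ‖a n‖) +
          Real.sinh (l * ‖a n‖) / ‖a n‖ * (a n * chr n t).re) ∂(haar N)) := by
        rw [ofReal_integral_eq_lintegral_ofReal]
        · exact hcont.integrable_of_hasCompactSupport (HasCompactSupport.of_compactSpace _)
        · refine Filter.Eventually.of_forall fun t => ?_
          exact Finset.prod_nonneg fun n hn => (Real.exp_pos _).le.trans (hle t n hn)
    _ ≤ _ := by
        refine ENNReal.ofReal_le_ofReal ?_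
        rw [integral_prod_kap A hA]
        have h1 : Real.exp (l ^ 2 * (∑ n ∈ A, ‖a n‖ ^ 2) / 2) =
            ∏ n ∈ A, Real.exp ((l * ‖a n‖) ^ 2 / 2) := by
          rw [← Real.exp_sum]
          congr 1
          rw [Finset.mul_sum, Finset.sum_div]
          exact Finset.sum_congr rfl fun n _ => by ring
        rw [h1]
        exact Finset.prod_le_prod (fun _ _ => (Real.cosh_pos _).le)
          fun n _ => Real.cosh_le_exp_half_sq _

theorem term_le (k : ℕ) (R v c : ℝ) (hv : 0 < v) (hc : 0 < c) :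
    (2 * R ^ 2 / c ^ 2) ^ k / k.factorial ≤
      ((2 / c ^ 2) ^ k * (2 * k).factorial / (k.factorial * (2 * k / v) ^ k)) *
        (Real.exp (Real.sqrt (2 * k / v) * R) + Real.exp (-Real.sqrt (2 * k / v) * R)) := by
  set L := Real.sqrt (2 * k / v) with hL
  have hL2 : L ^ 2 = 2 * k / v := Real.sq_sqrt (by positivity)
  have hL0 : 0 ≤ L := Real.sqrt_nonneg _
  have h1 := Real.pow_div_factorial_le_exp (L * |R|) (by positivity) (2 * k)
  have h2 : Real.exp (L * |R|) ≤ Real.exp (L * R) + Real.exp (-L * R) := by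
    rcases abs_cases R with ⟨h, _⟩ | ⟨h, _⟩
    · rw [h]; linarith [Real.exp_pos (-L * R)]
    · rw [h, show L * -R = -L * R by ring]; linarith [Real.exp_pos (L * R)]
  have h3 : (L * |R|) ^ (2 * k) = (2 * k / v) ^ k * (R ^ 2) ^ k := by
    rw [mul_pow, pow_mul L, hL2, pow_mul |R|, sq_abs]
  rw [h3] at h1
  have hpos : (0 : ℝ) < (2 * k / v) ^ k := by
    rcases Nat.eq_zero_or_pos k with h | h
    · subst h; simp
    · have : (0 : ℝ) < k := by exact_mod_cast h
      positivity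
  have h4 : (R ^ 2) ^ k ≤ (2 * k).factorial / (2 * k / v) ^ k *
      (Real.exp (L * R) + Real.exp (-L * R)) := by
    have h5 := h1.trans h2
    rw [div_le_iff₀ (by positivity)] at h5
    rw [div_mul_eq_mul_div, le_div_iff₀ hpos]
    linarith
  have h6 : (2 * R ^ 2 / c ^ 2) ^ k / k.factorial =
      (2 / c ^ 2) ^ k / k.factorial * (R ^ 2) ^ k := by
    rw [show 2 * R ^ 2 / c ^ 2 = 2 / c ^ 2 * R ^ 2 by ring, mul_pow]
    ring
  rw [h6]
  calc (2 / c ^ 2) ^ k / k.factorial * (R ^ 2) ^ k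
      ≤ (2 / c ^ 2) ^ k / k.factorial * ((2 * k).factorial / (2 * k / v) ^ k *
      (Real.exp (L * R) + Real.exp (-L * R))) := mul_le_mul_of_nonneg_left h4 (by positivity)
    _ = _ := by field_simp

theorem fact_le (k : ℕ) : ((2 * k).factorial : ℝ) ≤ k.factorial * (2 * k) ^ k := by
  have h1 := Nat.factorial_mul_ascFactorial k k
  have h2 := Nat.ascFactorial_le_pow_add k k
  have h3 : (2 * k).factorial ≤ k.factorial * (k + k) ^ k := by
    rw [show 2 * k = k + k by ring, ← h1]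
    exact Nat.mul_le_mul_left _ h2
  have h4 : ((2 * k).factorial : ℝ) ≤ k.factorial * ((k : ℝ) + k) ^ k := by exact_mod_cast h3
  rwa [show (k : ℝ) + k = 2 * k by ring] at h4

theorem moment (A : Finset (ℕ →₀ ZMod N)) (hA : QuasiIndependent (A : Set (ℕ →₀ ZMod N)))
    (a : (ℕ →₀ ZMod N) → ℂ) (c : ℝ) (hc : 0 < c) (hcs : 25 * ∑ n ∈ A, ‖a n‖ ^ 2 ≤ c ^ 2) :
    ∫⁻ t, ENNReal.ofReal (Real.exp (2 * (∑ n ∈ A, a n * chr n t).re ^ 2 / c ^ 2)) ∂(haar N) ≤
      ENNReal.ofReal (Real.exp 1) := by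
  set v := ∑ n ∈ A, ‖a n‖ ^ 2 with hv
  have hv0 : 0 ≤ v := Finset.sum_nonneg fun _ _ => by positivity
  set R : (ℕ → ZMod N) → ℝ := fun t => (∑ n ∈ A, a n * chr n t).re with hR
  have hRc : Continuous R := Complex.continuous_re.comp (poly_continuous A a)
  rcases hv0.eq_or_lt with h | hvpos
  · have h1 : ∀ n ∈ A, a n = 0 := by
      intro n hn
      have := (Finset.sum_eq_zero_iff_of_nonneg (fun _ _ => by positivity)).1 h.symm n hn
      simpa using this
    have h2 : ∀ t, R t = 0 := by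
      intro t
      rw [hR]
      simp only
      rw [Finset.sum_eq_zero (fun n hn => by rw [h1 n hn, zero_mul])]
      rfl
    calc ∫⁻ t, ENNReal.ofReal (Real.exp (2 * R t ^ 2 / c ^ 2)) ∂(haar N)
        = ∫⁻ _t, 1 ∂(haar N) := by
          refine lintegral_congr fun t => ?_
          rw [h2]; simp
      _ ≤ _ := by
          rw [lintegral_one, measure_univ]
          rw [ENNReal.one_le_ofReal]
          exact Real.one_le_exp (by norm_num)
  · set q : ℝ := 2 * Real.exp 1 * v / c ^ 2 with hq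
    have he := Real.exp_one_lt_d9
    have he' := Real.exp_one_gt_d9
    have hq0 : 0 ≤ q := by positivity
    have hq1 : q ≤ 22 / 100 := by
      rw [hq, div_le_iff₀ (by positivity)]
      nlinarith
    set B : ℕ → ℝ := fun k => (2 / c ^ 2) ^ k * (2 * k).factorial / (k.factorial * (2 * k / v) ^ k)
      with hB
    have hpos : ∀ k : ℕ, (0 : ℝ) < (2 * k / v) ^ k := by
      intro k
      rcases Nat.eq_zero_or_pos k with h | h
      · subst h; simp
      · have : (0 : ℝ) < k := by exact_mod_cast h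
        positivity
    have hB0 : ∀ k, 0 ≤ B k := fun k => by have := hpos k; positivity
    have hBq : ∀ k, B k * (2 * Real.exp 1 ^ k) ≤ 2 * q ^ k := by
      intro k
      have h1 := fact_le k
      have h2 : q ^ k = (2 / c ^ 2) ^ k * v ^ k * Real.exp 1 ^ k := by
        rw [hq, show 2 * Real.exp 1 * v / c ^ 2 = 2 / c ^ 2 * v * Real.exp 1 by ring, mul_pow, mul_pow]
      have h3 : B k ≤ (2 / c ^ 2) ^ k * v ^ k := by
        have h4 : B k = (2 / c ^ 2) ^ k * ((2 * k).factorial / (k.factorial * (2 * k / v) ^ k)) := by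
          rw [hB]; ring
        rw [h4]
        refine mul_le_mul_of_nonneg_left ?_ (by positivity)
        have h5 := hpos k
        rw [div_le_iff₀ (by positivity)]
        have h6 : v ^ k * (k.factorial * (2 * k / v) ^ k) = k.factorial * (2 * (k : ℝ)) ^ k := by
          rw [div_pow]
          field_simp
        rw [h6]
        exact h1
      rw [h2]
      have h7 : (0 : ℝ) < Real.exp 1 ^ k := by positivity
      nlinarith
    have hterm : ∀ k : ℕ, ∫⁻ t, ENNReal.ofReal ((2 * R t ^ 2 / c ^ 2) ^ k / k.factorial) ∂(haar N) ≤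
        ENNReal.ofReal (2 * q ^ k) := by
      intro k
      set L := Real.sqrt (2 * k / v) with hL
      have hL2 : L ^ 2 = 2 * k / v := Real.sq_sqrt (by positivity)
      have hm : ∀ s : ℝ, s ^ 2 = L ^ 2 →
          ∫⁻ t, ENNReal.ofReal (Real.exp (s * R t)) ∂(haar N) ≤ ENNReal.ofReal (Real.exp 1 ^ k) := by
        intro s hs
        refine (mgf A hA s a).trans (le_of_eq ?_)
        rw [← hv, hs, hL2, ← Real.exp_nat_mul]
        congr 2
        field_simp
      calc ∫⁻ t, ENNReal.ofReal ((2 * R t ^ 2 / c ^ 2) ^ k / k.factorial) ∂(haar N)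
          ≤ ∫⁻ t, ENNReal.ofReal (B k) * (ENNReal.ofReal (Real.exp (L * R t)) +
              ENNReal.ofReal (Real.exp (-L * R t))) ∂(haar N) := by
            refine lintegral_mono fun t => ?_
            rw [← ENNReal.ofReal_add (Real.exp_pos _).le (Real.exp_pos _).le,
              ← ENNReal.ofReal_mul (hB0 k)]
            exact ENNReal.ofReal_le_ofReal (term_le k (R t) v c hvpos hc)
        _ = ENNReal.ofReal (B k) * (∫⁻ t, ENNReal.ofReal (Real.exp (L * R t)) ∂(haar N) +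
              ∫⁻ t, ENNReal.ofReal (Real.exp (-L * R t)) ∂(haar N)) := by
            rw [lintegral_const_mul _ (by fun_prop), lintegral_add_left (by fun_prop)]
        _ ≤ ENNReal.ofReal (B k) * (ENNReal.ofReal (Real.exp 1 ^ k) +
              ENNReal.ofReal (Real.exp 1 ^ k)) :=
            mul_le_mul_right (add_le_add (hm L rfl) (hm (-L) (by ring))) _
        _ = ENNReal.ofReal (B k * (2 * Real.exp 1 ^ k)) := by
            rw [← ENNReal.ofReal_add (by positivity) (by positivity), ← ENNReal.ofReal_mul (hB0 k)]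
            congr 1
            ring
        _ ≤ _ := ENNReal.ofReal_le_ofReal (hBq k)
    have hexp : ∀ y : ℝ, 0 ≤ y → ENNReal.ofReal (Real.exp y) =
        ∑' k : ℕ, ENNReal.ofReal (y ^ k / k.factorial) := by
      intro y hy
      have h1 : Real.exp y = ∑' k : ℕ, y ^ k / k.factorial := by
        rw [Real.exp_eq_exp_ℝ, NormedSpace.exp_eq_tsum_div]
      rw [h1, ENNReal.ofReal_tsum_of_nonneg (fun k => by positivity)
        (Real.summable_pow_div_factorial y)]
    calc ∫⁻ t, ENNReal.ofReal (Real.exp (2 * R t ^ 2 / c ^ 2)) ∂(haar N)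
        = ∫⁻ t, ∑' k : ℕ, ENNReal.ofReal ((2 * R t ^ 2 / c ^ 2) ^ k / k.factorial) ∂(haar N) :=
          lintegral_congr fun t => hexp _ (by positivity)
      _ = ∑' k : ℕ, ∫⁻ t, ENNReal.ofReal ((2 * R t ^ 2 / c ^ 2) ^ k / k.factorial) ∂(haar N) :=
          lintegral_tsum fun k => by fun_prop
      _ ≤ ∑' k : ℕ, ENNReal.ofReal (2 * q ^ k) := ENNReal.tsum_le_tsum hterm
      _ = ENNReal.ofReal (∑' k : ℕ, 2 * q ^ k) := by
          rw [ENNReal.ofReal_tsum_of_nonneg (fun k => by positivity)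
            ((summable_geometric_of_lt_one hq0 (by linarith)).mul_left 2)]
      _ ≤ ENNReal.ofReal (Real.exp 1) := by
          refine ENNReal.ofReal_le_ofReal ?_
          rw [tsum_mul_left, tsum_geometric_of_lt_one hq0 (by linarith)]
          have h1 : (0 : ℝ) < 1 - q := by linarith
          rw [← div_eq_mul_inv, div_le_iff₀ h1]
          nlinarith

theorem single (A : Finset (ℕ →₀ ZMod N)) (hA : QuasiIndependent (A : Set (ℕ →₀ ZMod N)))
    (a : (ℕ →₀ ZMod N) → ℂ) (c : ℝ) (hc : 0 < c) (hcs : 25 * ∑ n ∈ A, ‖a n‖ ^ 2 ≤ c ^ 2) :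
    gauss (fun t => ∑ n ∈ A, a n * chr n t) c ≤ ENNReal.ofReal (Real.exp 1) := by
  have h1 := moment A hA a c hc hcs
  have h2 := moment A hA (fun n => -Complex.I * a n) c hc (by
    simpa using hcs)
  have hI : ∀ t, (∑ n ∈ A, -Complex.I * a n * chr n t).re = (∑ n ∈ A, a n * chr n t).im := by
    intro t
    have : ∑ n ∈ A, -Complex.I * a n * chr n t = -Complex.I * ∑ n ∈ A, a n * chr n t := by
      rw [Finset.mul_sum]
      exact Finset.sum_congr rfl fun n _ => by ring
    rw [this]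
    simp
  simp_rw [hI] at h2
  have hf := poly_continuous A a
  have hre : Continuous fun t => (∑ n ∈ A, a n * chr n t).re := Complex.continuous_re.comp hf
  have him : Continuous fun t => (∑ n ∈ A, a n * chr n t).im := Complex.continuous_im.comp hf
  calc gauss (fun t => ∑ n ∈ A, a n * chr n t) c
      ≤ ∫⁻ t, ENNReal.ofReal (1 / 2) *
          (ENNReal.ofReal (Real.exp (2 * (∑ n ∈ A, a n * chr n t).re ^ 2 / c ^ 2)) +
          ENNReal.ofReal (Real.exp (2 * (∑ n ∈ A, a n * chr n t).im ^ 2 / c ^ 2))) ∂(haar N) := by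
        refine lintegral_mono fun t => ?_
        rw [← ENNReal.ofReal_add (Real.exp_pos _).le (Real.exp_pos _).le,
          ← ENNReal.ofReal_mul (by norm_num)]
        refine ENNReal.ofReal_le_ofReal ?_
        set z := ∑ n ∈ A, a n * chr n t
        have e1 : ‖z‖ ^ 2 / c ^ 2 = z.re ^ 2 / c ^ 2 + z.im ^ 2 / c ^ 2 := by
          rw [← Complex.normSq_eq_norm_sq, Complex.normSq_apply]
          ring
        rw [e1, Real.exp_add]
        have e2 : Real.exp (2 * z.re ^ 2 / c ^ 2) = Real.exp (z.re ^ 2 / c ^ 2) ^ 2 := by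
          rw [← Real.exp_nat_mul]; congr 1; push_cast; ring
        have e3 : Real.exp (2 * z.im ^ 2 / c ^ 2) = Real.exp (z.im ^ 2 / c ^ 2) ^ 2 := by
          rw [← Real.exp_nat_mul]; congr 1; push_cast; ring
        rw [e2, e3]
        nlinarith [sq_nonneg (Real.exp (z.re ^ 2 / c ^ 2) - Real.exp (z.im ^ 2 / c ^ 2))]
    _ = ENNReal.ofReal (1 / 2) *
          (∫⁻ t, ENNReal.ofReal (Real.exp (2 * (∑ n ∈ A, a n * chr n t).re ^ 2 / c ^ 2)) ∂(haar N) +
          ∫⁻ t, ENNReal.ofReal (Real.exp (2 * (∑ n ∈ A, a n * chr n t).im ^ 2 / c ^ 2))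
            ∂(haar N)) := by
        rw [lintegral_const_mul _ (by fun_prop), lintegral_add_left (by fun_prop)]
    _ ≤ ENNReal.ofReal (1 / 2) * (ENNReal.ofReal (Real.exp 1) + ENNReal.ofReal (Real.exp 1)) :=
        mul_le_mul_right (add_le_add h1 h2) _
    _ = ENNReal.ofReal (Real.exp 1) := by
        rw [← ENNReal.ofReal_add (by positivity) (by positivity),
          ← ENNReal.ofReal_mul (by norm_num)]
        congr 1
        ring

theorem QuasiIndependent.mono {Λ Λ' : Set (ℕ →₀ ZMod N)} (h : QuasiIndependent Λ)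
    (h' : Λ' ⊆ Λ) : QuasiIndependent Λ' := fun A hA => h A (hA.trans h')

theorem union (k : ℕ) (hk : 0 < k) (Q : Fin k → Set (ℕ →₀ ZMod N))
    (hQ : ∀ i, QuasiIndependent (Q i)) (A : Finset (ℕ →₀ ZMod N))
    (hA : (A : Set (ℕ →₀ ZMod N)) ⊆ ⋃ i, Q i)
    (a : (ℕ →₀ ZMod N) → ℂ) (c : ℝ) (hc : 0 < c) (hcs : 25 * k ^ 2 * ∑ n ∈ A, ‖a n‖ ^ 2 ≤ c ^ 2) :
    gauss (fun t => ∑ n ∈ A, a n * chr n t) c ≤ ENNReal.ofReal (Real.exp 1) := by
  classical
  have hkR : (0 : ℝ) < k := by exact_mod_cast hk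
  have hcls : ∀ n : ℕ →₀ ZMod N, ∃ i : Fin k, n ∈ A → n ∈ Q i := by
    intro n
    by_cases h : n ∈ A
    · obtain ⟨i, hi⟩ := Set.mem_iUnion.1 (hA (Finset.mem_coe.2 h))
      exact ⟨i, fun _ => hi⟩
    · exact ⟨⟨0, hk⟩, fun h' => absurd h' h⟩
  choose cls hcls using hcls
  set Ai : Fin k → Finset (ℕ →₀ ZMod N) := fun i => A.filter (fun n => cls n = i) with hAi
  have hAiQ : ∀ i, QuasiIndependent (Ai i : Set (ℕ →₀ ZMod N)) := by
    intro i
    refine (hQ i).mono ?_
    intro n hn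
    have := Finset.mem_filter.1 (Finset.mem_coe.1 hn)
    rw [← this.2]
    exact hcls n this.1
  have hsplit : ∀ {β : Type} [AddCommMonoid β] (g : (ℕ →₀ ZMod N) → β),
      ∑ n ∈ A, g n = ∑ i : Fin k, ∑ n ∈ Ai i, g n := by
    intro β _ g
    exact (Finset.sum_fiberwise A cls g).symm
  have hi : ∀ i, gauss (fun t => ∑ n ∈ Ai i, a n * chr n t) (c / k) ≤
      ENNReal.ofReal (Real.exp 1) := by
    intro i
    refine single (Ai i) (hAiQ i) a (c / k) (by positivity) ?_
    rw [div_pow, le_div_iff₀ (by positivity)]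
    have h1 : ∑ n ∈ Ai i, ‖a n‖ ^ 2 ≤ ∑ n ∈ A, ‖a n‖ ^ 2 :=
      Finset.sum_le_sum_of_subset_of_nonneg (Finset.filter_subset _ _) (fun _ _ _ => by positivity)
    nlinarith [sq_nonneg (k : ℝ), mul_le_mul_of_nonneg_left h1 (sq_nonneg (k : ℝ))]
  have hcont : ∀ i, Continuous fun t => ∑ n ∈ Ai i, a n * chr n t := fun i => poly_continuous _ a
  calc gauss (fun t => ∑ n ∈ A, a n * chr n t) c
      ≤ ∫⁻ t, ∑ i : Fin k, ENNReal.ofReal (1 / k) *
          ENNReal.ofReal (Real.exp (‖∑ n ∈ Ai i, a n * chr n t‖ ^ 2 / (c / k) ^ 2)) ∂(haar N) := by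
        refine lintegral_mono fun t => ?_
        have e1 : ∑ i : Fin k, ENNReal.ofReal (1 / k) *
          ENNReal.ofReal (Real.exp (‖∑ n ∈ Ai i, a n * chr n t‖ ^ 2 / (c / k) ^ 2)) =
          ENNReal.ofReal (∑ i : Fin k, (1 / (k : ℝ)) *
          Real.exp (‖∑ n ∈ Ai i, a n * chr n t‖ ^ 2 / (c / k) ^ 2)) := by
          rw [ENNReal.ofReal_sum_of_nonneg (fun _ _ => by positivity)]
          exact Finset.sum_congr rfl fun i _ => (ENNReal.ofReal_mul (by positivity)).symm
        rw [e1]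
        refine ENNReal.ofReal_le_ofReal ?_
        have e2 := convexOn_exp.map_sum_le (t := (Finset.univ : Finset (Fin k)))
          (w := fun _ => 1 / (k : ℝ))
          (p := fun i => ‖∑ n ∈ Ai i, a n * chr n t‖ ^ 2 / (c / k) ^ 2)
          (fun _ _ => by positivity) (by simp [hkR.ne']) (fun _ _ => Set.mem_univ _)
        simp only [smul_eq_mul] at e2
        refine le_trans (Real.exp_le_exp.2 ?_) e2
        have e3 : ‖∑ n ∈ A, a n * chr n t‖ ≤ ∑ i : Fin k, ‖∑ n ∈ Ai i, a n * chr n t‖ := by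
          rw [hsplit]
          exact norm_sum_le _ _
        have e4 : (∑ i : Fin k, ‖∑ n ∈ Ai i, a n * chr n t‖) ^ 2 ≤
            k * ∑ i : Fin k, ‖∑ n ∈ Ai i, a n * chr n t‖ ^ 2 := by
          have := sq_sum_le_card_mul_sum_sq (s := (Finset.univ : Finset (Fin k)))
            (f := fun i => ‖∑ n ∈ Ai i, a n * chr n t‖)
          simpa using this
        have e5 : ‖∑ n ∈ A, a n * chr n t‖ ^ 2 ≤ k * ∑ i : Fin k, ‖∑ n ∈ Ai i, a n * chr n t‖ ^ 2 :=
          (pow_le_pow_left₀ (norm_nonneg _) e3 2).trans e4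
        calc ‖∑ n ∈ A, a n * chr n t‖ ^ 2 / c ^ 2
            ≤ (k * ∑ i : Fin k, ‖∑ n ∈ Ai i, a n * chr n t‖ ^ 2) / c ^ 2 := by gcongr
          _ = _ := by
              rw [Finset.mul_sum, Finset.sum_div]
              refine Finset.sum_congr rfl fun i _ => ?_
              field_simp
    _ = ∑ i : Fin k, ENNReal.ofReal (1 / k) *
          gauss (fun t => ∑ n ∈ Ai i, a n * chr n t) (c / k) := by
        rw [lintegral_finsetSum]
        · refine Finset.sum_congr rfl fun i _ => ?_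
          rw [lintegral_const_mul]
          · rfl
          · have := (hcont i).norm
            fun_prop
        · intro i _
          have := (hcont i).norm
          fun_prop
    _ ≤ ∑ _i : Fin k, ENNReal.ofReal (1 / k) * ENNReal.ofReal (Real.exp 1) :=
        Finset.sum_le_sum fun i _ => mul_le_mul_right (hi i) _
    _ = ENNReal.ofReal (Real.exp 1) := by
        rw [Finset.sum_const, Finset.card_univ, Fintype.card_fin, nsmul_eq_mul, ← mul_assoc,
          ← ENNReal.ofReal_natCast, ← ENNReal.ofReal_mul (by positivity)]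
        rw [mul_one_div_cancel hkR.ne', ENNReal.ofReal_one, one_mul]

theorem subgaussian_of_union (k : ℕ) (hk : 0 < k) (Q : Fin k → Set (ℕ →₀ ZMod N))
    (hQ : ∀ i, QuasiIndependent (Q i)) (Λ : Set (ℕ →₀ ZMod N)) (hΛ : Λ ⊆ ⋃ i, Q i) :
    Subgaussian Λ := by
  refine ⟨5 * k, fun A a hA => ?_⟩
  refine le_of_forall_pos_le_add fun ε hε => ?_
  set v := ∑ n ∈ A, ‖a n‖ ^ 2 with hv
  have hv0 : 0 ≤ v := Finset.sum_nonneg fun _ _ => by positivity
  have hs := Real.sqrt_nonneg v
  have hs2 := Real.sq_sqrt hv0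
  refine csInf_le ⟨0, fun c hc => hc.1.le⟩ ⟨by positivity, ?_⟩
  refine union k hk Q hQ A (hA.trans hΛ) a _ (by positivity) ?_
  rw [← hv]
  have h1 : (5 * k * Real.sqrt v) ^ 2 ≤ (5 * k * Real.sqrt v + ε) ^ 2 :=
    pow_le_pow_left₀ (by positivity) (by linarith) 2
  calc 25 * (k : ℝ) ^ 2 * v = (5 * k * Real.sqrt v) ^ 2 := by
        rw [mul_pow, hs2]; ring
    _ ≤ _ := h1

/-- For every `N ≥ 1` (in particular `N = 4`): a set `Λ` of nonzero characters of `G = (ℤ/N)^ℕ` is
subgaussian if and only if it is a finite union of quasi-independent sets. -/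
theorem result (N : ℕ) [NeZero N] (Λ : Set (ℕ →₀ ZMod N)) (h0 : (0 : ℕ →₀ ZMod N) ∉ Λ) :
    Subgaussian Λ ↔
      ∃ (k : ℕ) (Q : Fin k → Set (ℕ →₀ ZMod N)),
        (∀ i, QuasiIndependent (Q i)) ∧ Λ = ⋃ i, Q i := by
  classical
  constructor
  · intro h
    obtain ⟨K, hK⟩ := small_of_subgaussian Λ h0 h
    have hN : N ≠ 0 := NeZero.ne N
    obtain ⟨Q, hQ, hΛ⟩ := H337R3.Sid.finite_union N.primeFactorsList
      (fun q hq => Nat.prime_of_mem_primeFactorsList hq) K Λ
      (by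
        rw [Nat.prod_primeFactorsList hN]
        intro x _
        ext k
        simp) hK
    exact ⟨_, Q, fun i => hQ i, hΛ⟩
  · rintro ⟨k, Q, hQ, hΛ⟩
    rcases Nat.eq_zero_or_pos k with hk | hk
    · subst hk
      have hΛ' : Λ = ∅ := by rw [hΛ]; simp
      refine subgaussian_of_union 1 one_pos (fun _ => ∅) (fun _ => ?_) Λ (by rw [hΛ']; simp)
      intro A hA ξ _ _ x hx
      exact absurd (hA (Finset.mem_coe.2 hx)) (by simp)
    · exact subgaussian_of_union k hk Q hQ Λ hΛ.le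

end Pool.Agent.Results.MP_080bf7_an.SubgaussianIffQuasiIndependent
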